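import Mathlib

/-!
# Lower bound of the covariance matrix: the argument for general measures (project SB, package COV)
-/

set_option autoImplicit false

namespace Pool.Agent.U329.SB

open MeasureTheory Set Filter Topology ProbabilityTheory
open scoped ENNReal InnerProductSpace

/-- parallelogram bound for the variance -/
theorem var_add_le {Ω : Type*} [MeasurableSpace Ω] {μ : Measure Ω} [IsProbabilityMeasure μ]
    {X Y : Ω → ℝ} (hX : MemLp X 2 μ) (hY : MemLp Y 2 μ) :
    variance (fun ω => X ω + Y ω) μ ≤ 2 * variance X μ + 2 * variance Y μ := by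
  have h1 : variance (X + Y) μ = variance X μ + 2 * covariance X Y μ + variance Y μ :=
    variance_add hX hY
  have h2 : variance (X - Y) μ = variance X μ - 2 * covariance X Y μ + variance Y μ :=
    variance_sub hX hY
  have h3 : 0 ≤ variance (X - Y) μ := variance_nonneg _ _
  have h4 : (fun ω => X ω + Y ω) = X + Y := rfl
  rw [h4]
  linarith

/-- the gradient of `‖x - m‖²` -/
theorem grad_sq {E : Type*} [NormedAddCommGroup E] [InnerProductSpace ℝ E] (m x : E) :
    ‖fderiv ℝ (fun y : E => ‖y - m‖ ^ 2) x‖ ^ 2 = 4 * ‖x - m‖ ^ 2 := by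
  have h1 : HasFDerivAt (fun y : E => ‖y - m‖ ^ 2) (2 • innerSL ℝ (x - m)) x := by
    have h2 := (hasStrictFDerivAt_norm_sq (F := E) (x - m)).hasFDerivAt
    have h3 : HasFDerivAt (fun y : E => y - m) (ContinuousLinearMap.id ℝ E) x :=
      (hasFDerivAt_id x).sub_const m
    have h4 := h2.comp x h3
    rw [ContinuousLinearMap.comp_id] at h4
    exact h4
  rw [h1.fderiv]
  have h5 : (2 : ℕ) • innerSL ℝ (x - m) = (2 : ℝ) • innerSL ℝ (x - m) := by
    rw [← Nat.cast_smul_eq_nsmul ℝ]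
    norm_num
  rw [h5, norm_smul, innerSL_apply_norm]
  norm_num
  ring

variable {n : ℕ}

/-- the core -/
theorem core (hn : 1 ≤ n) (lam : Measure ℝ) [IsProbabilityMeasure lam]
    (mu : Measure (EuclideanSpace ℝ (Fin n))) [IsProbabilityMeasure mu] {P s : ℝ} (hP : 0 < P)
    (hs : 0 < s) (hmem : MemLp (fun t : ℝ => t ^ 2) 2 lam)
    (hsig : ∫ t, t ^ 2 ∂lam ≤ P)
    (hvar : (∫ t, t ^ 2 ∂lam) * P / 48 ≤ variance (fun t : ℝ => t ^ 2) lam)
    (hsym : ∀ H : EuclideanSpace ℝ (Fin n) → ℝ≥0∞, Measurable H →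
      (∀ (p : Equiv.Perm (Fin n)) (x : EuclideanSpace ℝ (Fin n)),
        H (WithLp.toLp 2 fun i => x (p i)) = H x) →
      (∀ (e : Fin n → Bool) (x : EuclideanSpace ℝ (Fin n)),
        H (WithLp.toLp 2 fun i => if e i then -x i else x i) = H x) →
      ∫⁻ x, H x ∂mu = ∫⁻ x, H x ∂(Measure.map (WithLp.toLp 2) (Measure.pi fun _ : Fin n => lam)))
    (hpoi : ∀ f : EuclideanSpace ℝ (Fin n) → ℝ, ContDiff ℝ 1 f → MemLp f 2 mu →
      ENNReal.ofReal (variance f mu) ≤
        ENNReal.ofReal P * ∫⁻ x, ENNReal.ofReal (‖fderiv ℝ f x‖ ^ 2) ∂mu)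
    (hcov : ∀ θ : EuclideanSpace ℝ (Fin n), evariance (fun x => ⟪θ, x⟫_ℝ) mu ≤
      ENNReal.ofReal (s * ‖θ‖ ^ 2)) :
    ∫ t, t ^ 2 ∂lam ≤ 768 * s := by
  obtain ⟨sg, hsg⟩ : ∃ sg, sg = ∫ t, t ^ 2 ∂lam := ⟨_, rfl⟩
  rw [← hsg] at hsig hvar ⊢
  have hsg0 : 0 ≤ sg := by rw [hsg]; exact integral_nonneg fun t => sq_nonneg _
  obtain ⟨nu, hnu⟩ : ∃ nu, nu = Measure.map (WithLp.toLp 2 : (Fin n → ℝ) → EuclideanSpace ℝ (Fin n))
    (Measure.pi fun _ : Fin n => lam) := ⟨_, rfl⟩
  have hm : Measurable (WithLp.toLp 2 : (Fin n → ℝ) → EuclideanSpace ℝ (Fin n)) :=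
    (PiLp.volume_preserving_toLp (Fin n)).measurable
  have hnuP : IsProbabilityMeasure nu := by
    rw [hnu]
    exact Measure.isProbabilityMeasure_map hm.aemeasurable
  -- symmetric functions of the norm
  have hnp : ∀ (p : Equiv.Perm (Fin n)) (x : EuclideanSpace ℝ (Fin n)),
      ‖(WithLp.toLp 2 fun i => x (p i) : EuclideanSpace ℝ (Fin n))‖ = ‖x‖ := by
    intro p x
    rw [EuclideanSpace.norm_eq, EuclideanSpace.norm_eq]
    congr 1
    exact Equiv.sum_comp p fun i => ‖x i‖ ^ 2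
  have hne : ∀ (e : Fin n → Bool) (x : EuclideanSpace ℝ (Fin n)),
      ‖(WithLp.toLp 2 fun i => if e i then -x i else x i : EuclideanSpace ℝ (Fin n))‖ = ‖x‖ := by
    intro e x
    rw [EuclideanSpace.norm_eq, EuclideanSpace.norm_eq]
    congr 1
    refine Finset.sum_congr rfl fun i _ => ?_
    dsimp only
    split_ifs
    · rw [norm_neg]
    · rfl
  have hN : ∀ φ : ℝ → ℝ≥0∞, Measurable φ → ∫⁻ x, φ ‖x‖ ∂mu = ∫⁻ x, φ ‖x‖ ∂nu := by
    intro φ hφ
    rw [hnu]
    refine hsym (fun x => φ ‖x‖) (hφ.comp measurable_norm) (fun p x => ?_) fun e x => ?_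
    · dsimp only
      rw [hnp]
    · dsimp only
      rw [hne]
  -- the function `‖x‖²` for the independent variables
  have hQc : Continuous fun x : EuclideanSpace ℝ (Fin n) => ‖x‖ ^ 2 := by fun_prop
  have hcomp : (fun x : EuclideanSpace ℝ (Fin n) => ‖x‖ ^ 2) ∘
      (WithLp.toLp 2 : (Fin n → ℝ) → EuclideanSpace ℝ (Fin n)) =
        ∑ i : Fin n, fun ω : Fin n → ℝ => (ω i) ^ 2 := by
    funext ω
    rw [Finset.sum_apply, Function.comp_apply, EuclideanSpace.real_norm_sq_eq]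
  have hmi : ∀ i : Fin n, MemLp (fun ω : Fin n → ℝ => (ω i) ^ 2) 2 (Measure.pi fun _ : Fin n => lam) := by
    intro i
    exact hmem.comp_measurePreserving (measurePreserving_eval (fun _ : Fin n => lam) i)
  have hQnu : MemLp (fun x : EuclideanSpace ℝ (Fin n) => ‖x‖ ^ 2) 2 nu := by
    rw [hnu, memLp_map_measure_iff hQc.aestronglyMeasurable hm.aemeasurable, hcomp]
    have e : (∑ i : Fin n, fun ω : Fin n → ℝ => (ω i) ^ 2) =
        fun ω : Fin n → ℝ => ∑ i : Fin n, (ω i) ^ 2 := by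
      funext ω
      simp
    rw [e]
    exact memLp_finsetSum _ fun i _ => hmi i
  have hQvar : variance (fun x : EuclideanSpace ℝ (Fin n) => ‖x‖ ^ 2) nu =
      n * variance (fun t : ℝ => t ^ 2) lam := by
    rw [hnu, variance_map hQc.aemeasurable hm.aemeasurable, hcomp,
      variance_sum_pi (μ := fun _ : Fin n => lam) (X := fun _ => fun t : ℝ => t ^ 2)
        (fun _ => hmem)]
    simp
  have hQint : ∫ x : EuclideanSpace ℝ (Fin n), ‖x‖ ^ 2 ∂nu = n * sg := by
    rw [hnu, integral_map hm.aemeasurable hQc.aestronglyMeasurable]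
    have e : (fun ω : Fin n → ℝ => ‖(WithLp.toLp 2 ω : EuclideanSpace ℝ (Fin n))‖ ^ 2) =
        fun ω => ∑ i : Fin n, (ω i) ^ 2 := by
      funext ω
      rw [EuclideanSpace.real_norm_sq_eq]
    rw [e, integral_finsetSum _ fun i _ => (hmi i).integrable one_le_two]
    have e2 : ∀ i : Fin n, ∫ ω : Fin n → ℝ, (ω i) ^ 2 ∂(Measure.pi fun _ : Fin n => lam) = sg := by
      intro i
      have h1 := (measurePreserving_eval (fun _ : Fin n => lam) i)
      have h2 := integral_map (μ := Measure.pi fun _ : Fin n => lam) (φ := Function.eval i)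
        h1.measurable.aemeasurable (f := fun t : ℝ => t ^ 2) (by
          rw [h1.map_eq]
          exact hmem.aestronglyMeasurable)
      rw [h1.map_eq] at h2
      rw [hsg, h2]
    rw [Finset.sum_congr rfl fun i _ => e2 i]
    simp
  -- the conditional law
  have hQ2 : ∀ a : ℝ, ∫ x : EuclideanSpace ℝ (Fin n), (‖x‖ ^ 2 - a) ^ 2 ∂mu =
      ∫ x : EuclideanSpace ℝ (Fin n), (‖x‖ ^ 2 - a) ^ 2 ∂nu := by
    intro a
    have hc : Continuous fun x : EuclideanSpace ℝ (Fin n) => (‖x‖ ^ 2 - a) ^ 2 := by fun_prop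
    rw [integral_eq_lintegral_of_nonneg_ae (Eventually.of_forall fun x => sq_nonneg _)
      hc.aestronglyMeasurable, integral_eq_lintegral_of_nonneg_ae
      (Eventually.of_forall fun x => sq_nonneg _) hc.aestronglyMeasurable,
      hN (fun r => ENNReal.ofReal ((r ^ 2 - a) ^ 2)) (by fun_prop)]
  have hQ1 : ∫ x : EuclideanSpace ℝ (Fin n), ‖x‖ ^ 2 ∂mu = n * sg := by
    rw [← hQint]
    rw [integral_eq_lintegral_of_nonneg_ae (Eventually.of_forall fun x => sq_nonneg _)
      hQc.aestronglyMeasurable, integral_eq_lintegral_of_nonneg_ae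
      (Eventually.of_forall fun x => sq_nonneg _) hQc.aestronglyMeasurable,
      hN (fun r => ENNReal.ofReal (r ^ 2)) (by fun_prop)]
  have hQmu : MemLp (fun x : EuclideanSpace ℝ (Fin n) => ‖x‖ ^ 2) 2 mu := by
    rw [memLp_two_iff_integrable_sq hQc.aestronglyMeasurable]
    refine ⟨(hQc.pow 2).aestronglyMeasurable, ?_⟩
    rw [hasFiniteIntegral_iff_ofReal (Eventually.of_forall fun x => sq_nonneg _),
      hN (fun r => ENNReal.ofReal ((r ^ 2) ^ 2)) (by fun_prop)]
    have h1 := hQnu.integrable_sq.2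
    rw [hasFiniteIntegral_iff_ofReal (Eventually.of_forall fun x => sq_nonneg _)] at h1
    exact h1
  have hQi : Integrable (fun x : EuclideanSpace ℝ (Fin n) => ‖x‖ ^ 2) mu :=
    hQmu.integrable one_le_two
  have hVQ : n * (sg * P / 48) ≤ variance (fun x : EuclideanSpace ℝ (Fin n) => ‖x‖ ^ 2) mu := by
    obtain ⟨a, ha⟩ : ∃ a, a = ∫ x : EuclideanSpace ℝ (Fin n), ‖x‖ ^ 2 ∂mu := ⟨_, rfl⟩
    rw [variance_eq_integral hQc.aemeasurable, ← ha, hQ2 a]
    have h5 := variance_le_expectation_sq (μ := nu)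
      (X := fun x : EuclideanSpace ℝ (Fin n) => ‖x‖ ^ 2 - a)
      (hQc.sub continuous_const).aestronglyMeasurable
    have h6 : variance (fun x : EuclideanSpace ℝ (Fin n) => ‖x‖ ^ 2 - a) nu =
        variance (fun x : EuclideanSpace ℝ (Fin n) => ‖x‖ ^ 2) nu :=
      variance_sub_const hQc.aestronglyMeasurable _
    rw [h6, hQvar] at h5
    refine le_trans ?_ h5
    exact mul_le_mul_of_nonneg_left hvar (Nat.cast_nonneg n)
  -- coordinates
  have hxi : ∀ i : Fin n, MemLp (fun x : EuclideanSpace ℝ (Fin n) => x i) 2 mu := by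
    intro i
    have hc : Continuous fun x : EuclideanSpace ℝ (Fin n) => x i := by fun_prop
    rw [memLp_two_iff_integrable_sq hc.aestronglyMeasurable]
    refine hQi.mono' (hc.pow 2).aestronglyMeasurable (Eventually.of_forall fun x => ?_)
    rw [Real.norm_eq_abs, abs_of_nonneg (sq_nonneg _), EuclideanSpace.real_norm_sq_eq]
    exact Finset.single_le_sum (f := fun j => x j ^ 2) (fun j _ => sq_nonneg _) (Finset.mem_univ i)
  obtain ⟨m, hmdef⟩ : ∃ m : EuclideanSpace ℝ (Fin n), m = WithLp.toLp 2 fun i => ∫ x, x i ∂mu :=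
    ⟨_, rfl⟩
  have hmi' : ∀ i, m i = ∫ x, x i ∂mu := by intro i; rw [hmdef]
  have hVi : ∀ i, variance (fun x : EuclideanSpace ℝ (Fin n) => x i) mu ≤ s := by
    intro i
    have h1 := hcov (EuclideanSpace.single i 1)
    have e1 : (fun x : EuclideanSpace ℝ (Fin n) => ⟪EuclideanSpace.single i (1 : ℝ), x⟫_ℝ) =
        fun x => x i := by
      funext x
      rw [EuclideanSpace.inner_single_left]
      simp
    have e2 : ‖(EuclideanSpace.single i (1 : ℝ) : EuclideanSpace ℝ (Fin n))‖ = 1 := by simp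
    rw [e1, ← (hxi i).ofReal_variance_eq, e2] at h1
    rw [ENNReal.ofReal_le_ofReal_iff (by positivity)] at h1
    simpa using h1
  have hm2 : ‖m‖ ^ 2 ≤ n * sg := by
    rw [EuclideanSpace.real_norm_sq_eq, ← hQ1]
    have e : (fun x : EuclideanSpace ℝ (Fin n) => ‖x‖ ^ 2) = fun x => ∑ i, x i ^ 2 := by
      funext x
      rw [EuclideanSpace.real_norm_sq_eq]
    rw [e, integral_finsetSum _ fun i _ => (hxi i).integrable_sq]
    refine Finset.sum_le_sum fun i _ => ?_
    have h1 := variance_nonneg (fun x : EuclideanSpace ℝ (Fin n) => x i) mu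
    rw [variance_eq_sub (hxi i)] at h1
    rw [hmi']
    have h2 : ∫ x : EuclideanSpace ℝ (Fin n), ((fun x : EuclideanSpace ℝ (Fin n) => x i) ^ 2) x ∂mu =
      ∫ x : EuclideanSpace ℝ (Fin n), x i ^ 2 ∂mu := rfl
    linarith
  -- the linear part
  have hLm : MemLp (fun x : EuclideanSpace ℝ (Fin n) => ⟪m, x⟫_ℝ) 2 mu := by
    have e : (fun x : EuclideanSpace ℝ (Fin n) => ⟪m, x⟫_ℝ) = fun x => ∑ i, m i * x i := by
      funext x
      rw [PiLp.inner_apply]
      refine Finset.sum_congr rfl fun i _ => ?_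
      simp [mul_comm]
    rw [e]
    exact memLp_finsetSum _ fun i _ => (hxi i).const_mul _
  have hVL : variance (fun x : EuclideanSpace ℝ (Fin n) => 2 * ⟪m, x⟫_ℝ) mu ≤ 4 * s * (n * sg) := by
    have h1 := hcov m
    rw [← hLm.ofReal_variance_eq, ENNReal.ofReal_le_ofReal_iff (by positivity)] at h1
    rw [variance_const_mul]
    have h2 : s * ‖m‖ ^ 2 ≤ s * (n * sg) := mul_le_mul_of_nonneg_left hm2 hs.le
    nlinarith
  -- the quadratic part
  have hDc : ContDiff ℝ 1 fun x : EuclideanSpace ℝ (Fin n) => ‖x - m‖ ^ 2 :=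
    (contDiff_id.sub contDiff_const).norm_sq ℝ
  have hDe : ∀ x : EuclideanSpace ℝ (Fin n), ‖x - m‖ ^ 2 = (‖x‖ ^ 2 - 2 * ⟪m, x⟫_ℝ) + ‖m‖ ^ 2 := by
    intro x
    rw [norm_sub_sq_real, real_inner_comm]
  have hDm : MemLp (fun x : EuclideanSpace ℝ (Fin n) => ‖x - m‖ ^ 2) 2 mu := by
    have e : (fun x : EuclideanSpace ℝ (Fin n) => ‖x - m‖ ^ 2) =
        fun x => (‖x‖ ^ 2 - 2 * ⟪m, x⟫_ℝ) + ‖m‖ ^ 2 := funext hDe
    rw [e]
    exact (hQmu.sub (hLm.const_mul 2)).add (memLp_const _)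
  have hVD : variance (fun x : EuclideanSpace ℝ (Fin n) => ‖x - m‖ ^ 2) mu ≤ P * (4 * (n * s)) := by
    have h1 := hpoi _ hDc hDm
    have e1 : ∀ x : EuclideanSpace ℝ (Fin n),
        ENNReal.ofReal (‖fderiv ℝ (fun y : EuclideanSpace ℝ (Fin n) => ‖y - m‖ ^ 2) x‖ ^ 2) =
          ENNReal.ofReal (4 * ‖x - m‖ ^ 2) := by
      intro x
      rw [grad_sq]
    rw [lintegral_congr e1, ← ofReal_integral_eq_lintegral_ofReal
      ((hDm.integrable one_le_two).const_mul 4) (Eventually.of_forall fun x => by positivity),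
      ← ENNReal.ofReal_mul hP.le, integral_const_mul] at h1
    have h2 : ∫ x : EuclideanSpace ℝ (Fin n), ‖x - m‖ ^ 2 ∂mu ≤ n * s := by
      have e2 : (fun x : EuclideanSpace ℝ (Fin n) => ‖x - m‖ ^ 2) = fun x => ∑ i, (x i - m i) ^ 2 := by
        funext x
        rw [EuclideanSpace.real_norm_sq_eq]
        rfl
      have hsqi : ∀ i : Fin n, Integrable (fun x : EuclideanSpace ℝ (Fin n) => (x i - m i) ^ 2) mu :=
        fun i => ((hxi i).sub (memLp_const (m i))).integrable_sq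
      rw [e2, integral_finsetSum _ fun i _ => hsqi i]
      have h3 : ∀ i ∈ (Finset.univ : Finset (Fin n)),
          ∫ x : EuclideanSpace ℝ (Fin n), (x i - m i) ^ 2 ∂mu ≤ s := by
        intro i _
        have hc : Continuous fun x : EuclideanSpace ℝ (Fin n) => x i := by fun_prop
        have h4 := hVi i
        rw [variance_eq_integral hc.aemeasurable] at h4
        rw [hmi']
        exact h4
      refine (Finset.sum_le_sum h3).trans ?_
      simp
    have h5 : 0 ≤ ∫ x : EuclideanSpace ℝ (Fin n), ‖x - m‖ ^ 2 ∂mu :=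
      integral_nonneg fun x => sq_nonneg _
    rw [ENNReal.ofReal_le_ofReal_iff (by positivity)] at h1
    refine h1.trans ?_
    refine mul_le_mul_of_nonneg_left ?_ hP.le
    linarith
  -- sum
  have hV : variance (fun x : EuclideanSpace ℝ (Fin n) => ‖x‖ ^ 2) mu ≤
      2 * (P * (4 * (n * s))) + 2 * (4 * s * (n * sg)) := by
    have h1 := var_add_le hDm (hLm.const_mul 2)
    have e : (fun x : EuclideanSpace ℝ (Fin n) => ‖x - m‖ ^ 2 + 2 * ⟪m, x⟫_ℝ) =
        fun x => ‖x‖ ^ 2 + ‖m‖ ^ 2 := by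
      funext x
      rw [hDe]
      ring
    rw [e, variance_add_const hQc.aestronglyMeasurable] at h1
    linarith
  have h7 := hVQ.trans hV
  have hn0 : (0 : ℝ) < n := by exact_mod_cast hn
  have h8 : s * (n * sg) ≤ s * (n * P) :=
    mul_le_mul_of_nonneg_left (mul_le_mul_of_nonneg_left hsig hn0.le) hs.le
  have h9 : (n * P) * sg ≤ (n * P) * (768 * s) := by nlinarith
  exact le_of_mul_le_mul_left h9 (by positivity)

end Pool.Agent.U329.SB
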