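import Pool.Agent.H756.SB.Stm2
import Pool.Agent.U329.SB.Cor

/-!
# Project SB, package COV: lower bound of the covariance matrix of signed order cones
-/

set_option autoImplicit false

namespace Pool.Agent.U329.SB

open MeasureTheory Set Filter Topology
open scoped ENNReal InnerProductSpace
open Pool.Agent.W695.KH (Eu Pot)
open Pool.Agent.U959.OC
open Pool.Agent.H756.SB

theorem t_COV : S_FACTS → S_SYM → S_ONE → S_COV := by
  intro hF hSy hO n ρ S hn h hev hne s hs hcov
  obtain ⟨hp, hle, hprob, hPoi, -⟩ := hF n ρ S h hev hne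
  obtain ⟨o1, o2, o3, o4, o5, o6⟩ := hO ρ h hev hp hle
  have hipr := iid_prob (n := n) h
  have hlp := h.prob
  rw [o3]
  have hP : 0 < 1 / ρ 0 ^ 2 := by positivity
  refine core (n := n) hn (law ρ) (nus ρ S) (P := 1 / ρ 0 ^ 2) (s := s) hP hs o1 o5 ?_ ?_ ?_ hcov
  · refine le_trans (le_of_eq ?_) o6
    field_simp
  · intro H hH hp1 hp2
    have e : Measure.map (WithLp.toLp 2) (Measure.pi fun _ : Fin n => law ρ) = iid n ρ := by
      rw [iid_eq h]
      rfl
    rw [e]
    unfold nus ProbabilityTheory.cond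
    rw [lintegral_smul_measure, hSy n ρ S h hev H hH hp1 hp2, smul_eq_mul, ← mul_assoc,
      ENNReal.inv_mul_cancel hne (measure_ne_top _ _), one_mul]
  · intro f hf hf2
    exact gen (nus ρ S) hP hPoi f hf hf2

end Pool.Agent.U329.SB
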